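import Pool.Agent.LibRD54.Aut
import Pool.Agent.LibRD.Blocks

/-!
# The concrete groups of the counterexample (rapid decay and cocompact normal subgroups)

`FF` free product of four groups of order two, `MM` compact group `(ℤ → F₂)²`, `FF` acts on `MM`
(two reflections of the index set of the first factor, the shear `(u,k) ↦ (u+k,k)`, and the
identity), `QQ = MM ⋊ FF`, `W1` free product of groups of order two indexed by `FF × F₂`,
`G1 = W1 ⋊ QQ`, `Lam` the graph on `W1` whose cliques are the blocks, `W2` its right-angled Coxeter
group and `GG = W2 ⋊ G1`.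
-/

set_option autoImplicit false

namespace Pool.Agent.RD93

open Pool.Agent.RD54

/-- Free product of four groups of order two. -/
abbrev FF : Type := Rac (⊥ : SimpleGraph (Fin 4))

/-- The additive group `(ℤ → F₂)²`. -/
abbrev AA : Type := (ℤ → ZMod 2) × (ℤ → ZMod 2)

/-- The compact group, written multiplicatively. -/
abbrev MM : Type := Multiplicative AA

/-- The reflection `(u,k) ↦ (u(a - ·), k)`. -/
def reflA (a : ℤ) : AA ≃+ AA where
  toFun x := (fun n => x.1 (a - n), x.2)
  invFun x := (fun n => x.1 (a - n), x.2)
  left_inv x := by ext n <;> simp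
  right_inv x := by ext n <;> simp
  map_add' x y := by ext n <;> simp

/-- The shear `(u,k) ↦ (u+k,k)`. -/
def shearA : AA ≃+ AA where
  toFun x := (x.1 + x.2, x.2)
  invFun x := (x.1 + x.2, x.2)
  left_inv x := by
    have h : ∀ a b : ZMod 2, a + b + b = a := by decide
    ext n
    · exact h _ _
    · rfl
  right_inv x := by
    have h : ∀ a b : ZMod 2, a + b + b = a := by decide
    ext n
    · exact h _ _
    · rfl
  map_add' x y := by
    ext n
    · simp only [Prod.fst_add, Prod.snd_add, Pi.add_apply]; ring
    · rfl

/-- Images of the generators of `FF`. -/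
def genAct (i : Fin 4) : MulAut MM :=
  match i with
  | 0 => AddEquiv.toMultiplicative (reflA 0)
  | 1 => AddEquiv.toMultiplicative (reflA 1)
  | 2 => AddEquiv.toMultiplicative shearA
  | 3 => 1

theorem genAct_mul_self (i : Fin 4) : genAct i * genAct i = 1 := by
  match i with
  | 0 =>
    apply MulEquiv.ext
    intro x
    exact congrArg Multiplicative.ofAdd ((reflA 0).left_inv (Multiplicative.toAdd x))
  | 1 =>
    apply MulEquiv.ext
    intro x
    exact congrArg Multiplicative.ofAdd ((reflA 1).left_inv (Multiplicative.toAdd x))
  | 2 =>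
    apply MulEquiv.ext
    intro x
    exact congrArg Multiplicative.ofAdd (shearA.left_inv (Multiplicative.toAdd x))
  | 3 => rfl

/-- The action of `FF` on `MM`. -/
noncomputable def actF : FF →* MulAut MM :=
  racLift genAct genAct_mul_self (fun _ _ h => h.elim)

@[simp] theorem actF_gen (i : Fin 4) : actF (gen _ i) = genAct i := by
  rw [actF, racLift_gen]

/-- The semidirect product of the compact group with the free product. -/
abbrev QQ : Type := MM ⋊[actF] FF

/-- The digit at the position `f`. -/
noncomputable def dig (f : FF) (v : MM) : ZMod 2 := (Multiplicative.toAdd (actF f⁻¹ v)).1 0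

theorem dig_mul (f : FF) (v v' : MM) : dig f (v * v') = dig f v + dig f v' := by
  simp [dig]

@[simp] theorem dig_one (f : FF) : dig f 1 = 0 := by
  simp [dig]

theorem dig_act (d f : FF) (v : MM) : dig (d * f) (actF d v) = dig f v := by
  unfold dig
  have : actF (d * f)⁻¹ (actF d v) = actF f⁻¹ v := by
    rw [← MulAut.mul_apply, ← map_mul, mul_inv_rev, mul_assoc, inv_mul_cancel, mul_one]
  rw [this]

/-- Index set of the generators of `W1`: a position and a digit. -/
abbrev V1 : Type := FF × ZMod 2

noncomputable instance instMulActionV1 : MulAction QQ V1 where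
  smul q x := (q.right * x.1, x.2 + dig (q.right * x.1) q.left)
  one_smul x := by
    change ((1 : FF) * x.1, x.2 + dig ((1 : FF) * x.1) 1) = x
    rw [dig_one, one_mul, add_zero]
  mul_smul q r x := by
    change ((q * r).right * x.1, x.2 + dig ((q * r).right * x.1) (q * r).left)
      = (q.right * (r.right * x.1),
          (x.2 + dig (r.right * x.1) r.left) + dig (q.right * (r.right * x.1)) q.left)
    rw [SemidirectProduct.mul_right, SemidirectProduct.mul_left, mul_assoc, dig_mul, dig_act]
    congr 1
    ring

theorem smul_V1 (q : QQ) (x : V1) :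
    q • x = (q.right * x.1, x.2 + dig (q.right * x.1) q.left) := rfl

/-- Free product of groups of order two indexed by `V1`. -/
abbrev W1 : Type := LibRD.W1 FF

/-- The action of `QQ` on `W1`. -/
noncomputable def phi1 : QQ →* MulAut W1 := racAct (⊥ : SimpleGraph V1) (fun _ _ _ h => h.elim)

@[simp] theorem phi1_gen (q : QQ) (x : V1) : phi1 q (gen _ x) = gen _ (q • x) := racAct_gen _ q x

theorem phi1_wp (q : QQ) (l : List V1) :
    phi1 q (wp _ l) = wp _ (l.map (fun x => q • x)) := racAct_wp _ q l

theorem len_phi1 (q : QQ) (w : W1) : len (phi1 q w) = len w := len_racAct _ q w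

/-- The group acting on the graph. -/
abbrev G1 : Type := W1 ⋊[phi1] QQ

noncomputable instance instMulActionW1 : MulAction G1 W1 where
  smul g x := g.left * phi1 g.right x
  one_smul x := by
    change (1 : W1) * phi1 1 x = x
    rw [map_one, one_mul]; rfl
  mul_smul g h x := by
    change (g * h).left * phi1 (g * h).right x = g.left * phi1 g.right (h.left * phi1 h.right x)
    rw [SemidirectProduct.mul_right, SemidirectProduct.mul_left, map_mul, map_mul, mul_assoc]
    rfl

theorem smul_W1 (g : G1) (x : W1) : g • x = g.left * phi1 g.right x := rfl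

/-- The product of the two reflections, a translation of `ℤ`. -/
noncomputable def tt : FF := gen _ 1 * gen _ 0

/-- The positions: `site i 0` distinguishes the points of a block, `site i k` with `k > 0`
does not depend on `i` and carries the digits. -/
noncomputable def site (i k : ℕ) : FF :=
  if k = 0 then tt ^ i * gen _ 3 * (tt ^ i)⁻¹ else tt ^ k * gen _ 2 * (tt ^ k)⁻¹

/-- The position of the functional of the `k`-th digit of a block. -/
noncomputable def dsite (k : ℕ) : FF := if k = 0 then 1 else tt ^ k * gen _ 2 * (tt ^ k)⁻¹

/-- Action on digits. -/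
noncomputable def dact (v : MM) (g : FF) (e : List (ZMod 2)) : List (ZMod 2) :=
  e.mapIdx (fun k x => x + dig (g * dsite k) v)

@[simp] theorem length_dact (v : MM) (g : FF) (e : List (ZMod 2)) :
    (dact v g e).length = e.length := by simp [dact]

theorem getElem_dact (v : MM) (g : FF) (e : List (ZMod 2)) (k : ℕ)
    (h : k < (dact v g e).length) :
    (dact v g e)[k] = e[k]'(by simpa using h) + dig (g * dsite k) v := by
  simp [dact]

/-- The functional of a position does not depend on the first index. -/
theorem dig_site (g : FF) (i k : ℕ) (v : MM) : dig (g * site i k) v = dig (g * dsite k) v := by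
  unfold site dsite
  by_cases h : k = 0
  · simp only [h, if_true, mul_one]
    have h3 : actF (tt ^ i * gen _ 3 * (tt ^ i)⁻¹) = 1 := by
      have : actF (gen _ 3) = 1 := actF_gen 3
      rw [map_mul, map_mul, this, map_inv, mul_one, mul_inv_cancel]
    unfold dig
    rw [mul_inv_rev, map_mul, map_inv, h3, inv_one, one_mul]
  · simp only [h, if_false]

/-- The action of `QQ` on block words. -/
theorem smul_lam (q : QQ) (g : FF) (e : List (ZMod 2)) (i : ℕ) :
    (LibRD.lam site g e i).map (fun x => q • x)
      = LibRD.lam site (q.right * g) (dact q.left (q.right * g) e) i := by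
  apply List.ext_getElem
  · simp
  · intro n h1 h2
    rw [List.getElem_map, LibRD.getElem_lam, LibRD.getElem_lam, smul_V1, getElem_dact,
      ← dig_site (q.right * g) i, mul_assoc]

theorem smul_bpt (h : G1) (o : W1) (g : FF) (e : List (ZMod 2)) (i : ℕ) :
    h • LibRD.bpt site o g e i
      = LibRD.bpt site (h • o) (h.right.right * g) (dact h.right.left (h.right.right * g) e) i := by
  unfold LibRD.bpt
  rw [smul_W1, smul_W1, map_mul, phi1_wp, smul_lam, mul_assoc]

theorem smul_Bl (h : G1) {x y o : W1} {g : FF} {e : List (ZMod 2)}
    (hb : LibRD.Bl site x y o g e) :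
    LibRD.Bl site (h • x) (h • y) (h • o) (h.right.right * g)
      (dact h.right.left (h.right.right * g) e) := by
  obtain ⟨i, j, hi, hj, hij, hx, hy⟩ := hb
  refine ⟨i, j, ?_, ?_, hij, ?_, ?_⟩
  · simpa using hi
  · simpa using hj
  · rw [hx, smul_bpt]
  · rw [hy, smul_bpt]

theorem smul_bset (h : G1) (o : W1) (g : FF) (e : List (ZMod 2)) :
    (fun x => h • x) '' LibRD.bset site o g e
      = LibRD.bset site (h • o) (h.right.right * g) (dact h.right.left (h.right.right * g) e) := by
  ext u
  constructor
  · rintro ⟨x, ⟨i, hi, rfl⟩, rfl⟩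
    exact ⟨i, by simpa using hi, by simp only [smul_bpt]⟩
  · rintro ⟨i, hi, rfl⟩
    exact ⟨_, ⟨i, by simpa using hi, rfl⟩, by simp only [smul_bpt]⟩

/-- The graph of the lamps: two distinct points of `W1` are adjacent when they lie in a common
block. -/
noncomputable abbrev Lam : SimpleGraph W1 := LibRD.Lam site

theorem lam_adj_smul (h : G1) (x y : W1) (hxy : Lam.Adj x y) : Lam.Adj (h • x) (h • y) := by
  obtain ⟨hne, o, g, e, hb⟩ := hxy
  exact ⟨fun hh => hne (smul_left_cancel h hh), _, _, _, smul_Bl h hb⟩

/-- The right-angled Coxeter group of the lamps. -/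
abbrev W2 : Type := Rac Lam

/-- The action of `G1` on `W2`. -/
noncomputable def phi2 : G1 →* MulAut W2 := racAct Lam lam_adj_smul

@[simp] theorem phi2_gen (g : G1) (x : W1) : phi2 g (gen _ x) = gen _ (g • x) := racAct_gen _ g x

theorem phi2_wp (g : G1) (l : List W1) :
    phi2 g (wp _ l) = wp _ (l.map (fun x => g • x)) := racAct_wp _ g l

theorem len_phi2 (g : G1) (w : W2) : len (phi2 g w) = len w := len_racAct _ g w

/-- The group of the counterexample. -/
abbrev GG : Type := W2 ⋊[phi2] G1

end Pool.Agent.RD93
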