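import Mathlib

/-!
# Topology on a semidirect product
-/

set_option autoImplicit false

open Topology

namespace Pool.Agent.RD93

variable {N Q : Type*} [Group N] [Group Q] [TopologicalSpace N] [TopologicalSpace Q]
  {φ : Q →* MulAut N}

/-- The product topology on a semidirect product. -/
instance instTopSemidirect : TopologicalSpace (N ⋊[φ] Q) :=
  TopologicalSpace.induced (SemidirectProduct.equivProd (φ := φ)) inferInstance

/-- The homeomorphism with the product. -/
def homeoProd : (N ⋊[φ] Q) ≃ₜ N × Q where
  toEquiv := SemidirectProduct.equivProd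
  continuous_toFun := continuous_induced_dom
  continuous_invFun := by
    rw [continuous_induced_rng]
    exact continuous_id

theorem homeoProd_apply (g : N ⋊[φ] Q) : homeoProd g = (g.left, g.right) := rfl

theorem continuous_left : Continuous (fun g : N ⋊[φ] Q => g.left) :=
  continuous_fst.comp (homeoProd (φ := φ)).continuous

theorem continuous_right : Continuous (fun g : N ⋊[φ] Q => g.right) :=
  continuous_snd.comp (homeoProd (φ := φ)).continuous

theorem continuous_mk {X : Type*} [TopologicalSpace X] {f : X → N} {g : X → Q}
    (hf : Continuous f) (hg : Continuous g) :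
    Continuous (fun x => (⟨f x, g x⟩ : N ⋊[φ] Q)) :=
  (homeoProd (φ := φ)).symm.continuous.comp (hf.prodMk hg)

/-- A semidirect product with jointly continuous action is a topological group. -/
theorem isTopologicalGroup_semidirect [IsTopologicalGroup N] [IsTopologicalGroup Q]
    (hφ : Continuous (fun p : Q × N => φ p.1 p.2)) : IsTopologicalGroup (N ⋊[φ] Q) where
  continuous_mul := by
    have h1 : Continuous (fun p : (N ⋊[φ] Q) × (N ⋊[φ] Q) =>
        (⟨p.1.left * φ p.1.right p.2.left, p.1.right * p.2.right⟩ : N ⋊[φ] Q)) := by
      apply continuous_mk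
      · apply Continuous.mul
        · exact continuous_left.comp continuous_fst
        · exact hφ.comp ((continuous_right.comp continuous_fst).prodMk
            (continuous_left.comp continuous_snd))
      · exact (continuous_right.comp continuous_fst).mul (continuous_right.comp continuous_snd)
    exact h1
  continuous_inv := by
    have h1 : Continuous (fun p : (N ⋊[φ] Q) =>
        (⟨φ p.right⁻¹ p.left⁻¹, p.right⁻¹⟩ : N ⋊[φ] Q)) := by
      apply continuous_mk
      · exact hφ.comp ((continuous_right.inv).prodMk (continuous_left.inv))
      · exact continuous_right.inv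
    exact h1

/-- Continuity of an action on a discrete set from local constancy. -/
theorem continuous_of_discrete_right {X : Type*} [TopologicalSpace X] [DiscreteTopology N]
    {Y : Type*} [TopologicalSpace Y] (f : X → N → Y) (h : ∀ n, Continuous (fun x => f x n)) :
    Continuous (fun p : X × N => f p.1 p.2) := by
  rw [continuous_iff_continuousAt]
  rintro ⟨x, n⟩
  have h1 : ContinuousAt (fun p : X × N => f p.1 n) (x, n) :=
    ((h n).comp continuous_fst).continuousAt
  refine h1.congr ?_
  have h2 : ∀ᶠ p : X × N in 𝓝 (x, n), p.2 = n := by
    have : (fun p : X × N => p.2) ⁻¹' {n} ∈ 𝓝 (x, n) :=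
      (isOpen_discrete ({n} : Set N)).preimage continuous_snd |>.mem_nhds rfl
    exact this
  filter_upwards [h2] with p hp
  rw [hp]

/-- Continuity of an action of a discrete group. -/
theorem continuous_of_discrete_left {X : Type*} [TopologicalSpace X] [DiscreteTopology Q]
    {Y : Type*} [TopologicalSpace Y] (f : Q → X → Y) (h : ∀ q, Continuous (fun x => f q x)) :
    Continuous (fun p : Q × X => f p.1 p.2) := by
  rw [continuous_iff_continuousAt]
  rintro ⟨q, x⟩
  have h1 : ContinuousAt (fun p : Q × X => f q p.2) (q, x) :=
    ((h q).comp continuous_snd).continuousAt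
  refine h1.congr ?_
  have h2 : ∀ᶠ p : Q × X in 𝓝 (q, x), p.1 = q := by
    have : (fun p : Q × X => p.1) ⁻¹' {q} ∈ 𝓝 (q, x) :=
      (isOpen_discrete ({q} : Set Q)).preimage continuous_fst |>.mem_nhds rfl
    exact this
  filter_upwards [h2] with p hp
  rw [hp]

end Pool.Agent.RD93
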