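import Pool.Agent.LibRD93.Defs
import Pool.Agent.LibRD93.Top

/-!
# Topology on the concrete groups
-/

set_option autoImplicit false

open Topology

namespace Pool.Agent.RD93

open Pool.Agent.RD54

section Disc

variable {V : Type*}

/-- Right-angled Coxeter groups are discrete. -/
instance instTopRac (L : SimpleGraph V) : TopologicalSpace (Rac L) := ⊥

instance instDiscRac (L : SimpleGraph V) : DiscreteTopology (Rac L) := ⟨rfl⟩

instance instCountableRac (L : SimpleGraph V) [Countable V] : Countable (Rac L) := by
  have h : Function.Surjective (fun l : List V => wp L l) := by
    intro w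
    obtain ⟨l, hl, -⟩ := exists_reduced w
    exact ⟨l, hl⟩
  exact h.countable

end Disc


theorem continuous_refl (a : ℤ) : Continuous (reflA a) := by
  change Continuous (fun x : AA => ((fun n => x.1 (a - n), x.2) : AA))
  fun_prop

theorem continuous_shear : Continuous shearA := by
  change Continuous (fun x : AA => ((x.1 + x.2, x.2) : AA))
  fun_prop

theorem continuous_genAct (i : Fin 4) : Continuous (genAct i) := by
  match i with
  | 0 => exact continuous_refl 0
  | 1 => exact continuous_refl 1
  | 2 => exact continuous_shear
  | 3 => exact continuous_id

theorem continuous_actF_right (f : FF) : Continuous (actF f) := by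
  obtain ⟨l, hl, -⟩ := exists_reduced f
  subst hl
  induction l with
  | nil =>
    rw [wp_nil, map_one]
    exact continuous_id
  | cons i l ih =>
    rw [wp_cons, map_mul, actF_gen]
    exact (continuous_genAct i).comp ih

theorem continuous_actF : Continuous (fun p : FF × MM => actF p.1 p.2) :=
  continuous_of_discrete_left (fun f v => actF f v) continuous_actF_right

instance : IsTopologicalGroup MM := inferInstance
instance : CompactSpace MM := inferInstanceAs (CompactSpace AA)
instance : T2Space MM := inferInstanceAs (T2Space AA)
instance : SecondCountableTopology MM := inferInstanceAs (SecondCountableTopology AA)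

instance : IsTopologicalGroup QQ := isTopologicalGroup_semidirect continuous_actF

theorem continuous_dig (f : FF) : Continuous (dig f) := by
  have h1 : Continuous (fun v : AA => v.1 0) := by fun_prop
  exact h1.comp (continuous_actF_right f⁻¹)

/-- The orbit maps of the action on `V1` are continuous. -/
theorem continuous_smul_V1 (x : V1) : Continuous (fun q : QQ => q • x) := by
  obtain ⟨a, b⟩ := x
  have h1 : Continuous (fun f : FF => f * a) := continuous_of_discreteTopology
  have h2 : Continuous (fun c : ZMod 2 => b + c) := continuous_of_discreteTopology
  have h3 : Continuous (fun p : FF × MM => dig (p.1 * a) p.2) :=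
    continuous_of_discrete_left (fun f v => dig (f * a) v) (fun f => continuous_dig (f * a))
  have h4 : Continuous (fun q : QQ => (q.right, q.left)) :=
    continuous_right.prodMk continuous_left
  have h5 : Continuous (fun q : QQ => b + dig (q.right * a) q.left) := h2.comp (h3.comp h4)
  exact (h1.comp continuous_right).prodMk h5

theorem continuous_phi1_left (w : W1) : Continuous (fun q : QQ => phi1 q w) := by
  obtain ⟨l, hl, -⟩ := exists_reduced w
  subst hl
  induction l with
  | nil =>
    simp only [wp_nil, map_one]
    exact continuous_const
  | cons x l ih =>
    simp only [wp_cons, map_mul, phi1_gen]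
    apply Continuous.mul _ ih
    have h1 : Continuous (fun y : V1 => gen (⊥ : SimpleGraph V1) y) := continuous_of_discreteTopology
    exact h1.comp (continuous_smul_V1 x)

theorem continuous_phi1 : Continuous (fun p : QQ × W1 => phi1 p.1 p.2) :=
  continuous_of_discrete_right (fun q w => phi1 q w) continuous_phi1_left

instance : IsTopologicalGroup G1 := isTopologicalGroup_semidirect continuous_phi1

theorem continuous_smul_W1 (x : W1) : Continuous (fun g : G1 => g • x) := by
  have h1 : Continuous (fun g : G1 => g.left * phi1 g.right x) :=
    continuous_left.mul ((continuous_phi1_left x).comp continuous_right)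
  exact h1

theorem continuous_phi2_left (w : W2) : Continuous (fun g : G1 => phi2 g w) := by
  obtain ⟨l, hl, -⟩ := exists_reduced w
  subst hl
  induction l with
  | nil =>
    simp only [wp_nil, map_one]
    exact continuous_const
  | cons x l ih =>
    simp only [wp_cons, map_mul, phi2_gen]
    apply Continuous.mul _ ih
    have h1 : Continuous (fun y : W1 => gen Lam y) := continuous_of_discreteTopology
    exact h1.comp (continuous_smul_W1 x)

theorem continuous_phi2 : Continuous (fun p : G1 × W2 => phi2 p.1 p.2) :=
  continuous_of_discrete_right (fun g w => phi2 g w) continuous_phi2_left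

instance : IsTopologicalGroup GG := isTopologicalGroup_semidirect continuous_phi2

section Transfer

variable {N Q : Type*} [Group N] [Group Q] [TopologicalSpace N] [TopologicalSpace Q]
  {φ : Q →* MulAut N}

theorem t2_semidirect [T2Space N] [T2Space Q] : T2Space (N ⋊[φ] Q) :=
  (homeoProd (φ := φ)).symm.t2Space

theorem lc_semidirect [LocallyCompactSpace N] [LocallyCompactSpace Q] :
    LocallyCompactSpace (N ⋊[φ] Q) :=
  (homeoProd (φ := φ)).isClosedEmbedding.locallyCompactSpace

theorem sc_semidirect [SecondCountableTopology N] [SecondCountableTopology Q] :
    SecondCountableTopology (N ⋊[φ] Q) :=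
  (homeoProd (φ := φ)).isEmbedding.secondCountableTopology

end Transfer

instance : T2Space QQ := t2_semidirect
instance : LocallyCompactSpace QQ := lc_semidirect
instance : SecondCountableTopology QQ := sc_semidirect
instance : T2Space G1 := t2_semidirect
instance : LocallyCompactSpace G1 := lc_semidirect
instance : SecondCountableTopology G1 := sc_semidirect
instance : T2Space GG := t2_semidirect
instance : LocallyCompactSpace GG := lc_semidirect
instance : SecondCountableTopology GG := sc_semidirect

end Pool.Agent.RD93
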