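import Pool.Agent.LibRD93.Ker

/-!
# Compact generation
-/

set_option autoImplicit false

open Topology

namespace Pool.Agent.RD93

open Pool.Agent.RD54

/-- Embedding of `FF`. -/
noncomputable def iF : FF →* GG :=
  (SemidirectProduct.inr : G1 →* GG).comp
    ((SemidirectProduct.inr : QQ →* G1).comp (SemidirectProduct.inr : FF →* QQ))

/-- Embedding of `W1`. -/
noncomputable def iW1 : W1 →* GG :=
  (SemidirectProduct.inr : G1 →* GG).comp (SemidirectProduct.inl : W1 →* G1)

/-- Embedding of `W2`. -/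
noncomputable def iW2 : W2 →* GG := (SemidirectProduct.inl : W2 →* GG)

/-- Embedding of `G1`. -/
noncomputable def iG1 : G1 →* GG := (SemidirectProduct.inr : G1 →* GG)

/-- Embedding of `QQ`. -/
noncomputable def iQ : QQ →* GG := iG1.comp (SemidirectProduct.inr : QQ →* G1)

theorem iQ_conj (q : QQ) (w : W1) : iQ q * iW1 w * (iQ q)⁻¹ = iW1 (phi1 q w) := by
  have h := SemidirectProduct.inl_aut (φ := phi1) q w
  have h2 := congrArg iG1 h
  rw [map_mul, map_mul, map_inv, map_inv] at h2
  exact h2.symm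

theorem iG1_conj (g : G1) (w : W2) : iG1 g * iW2 w * (iG1 g)⁻¹ = iW2 (phi2 g w) := by
  have h := SemidirectProduct.inl_aut (φ := phi2) g w
  rw [map_inv] at h
  exact h.symm

/-- The compact generating set. -/
noncomputable def gens : Set GG :=
  Set.range iM ∪ (Set.range (fun i : Fin 4 => iF (gen _ i)) ∪
    {iW1 (gen _ (1, 0)), iW2 (gen _ 1)})

theorem isCompact_gens : IsCompact gens := by
  apply IsCompact.union
  · exact isCompact_range continuous_iM
  · exact ((Set.finite_range _).union (Set.toFinite _)).isCompact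

theorem exists_dig (f : FF) (c : ZMod 2) : ∃ m : MM, dig f m = c := by
  refine ⟨actF f (Multiplicative.ofAdd (fun _ => c, 0)), ?_⟩
  have h := dig_act f 1 (Multiplicative.ofAdd (fun _ => c, 0))
  rw [mul_one] at h
  rw [h]
  unfold dig
  rw [inv_one, map_one]
  rfl

theorem wp_mem {V : Type*} {L : SimpleGraph V} {G : Type*} [Group G] (S : Subgroup G)
    (j : Rac L →* G) (h : ∀ x, j (gen L x) ∈ S) (w : Rac L) : j w ∈ S := by
  obtain ⟨l, hl, -⟩ := exists_reduced w
  subst hl
  induction l with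
  | nil => rw [wp_nil, map_one]; exact S.one_mem
  | cons x l ih => rw [wp_cons, map_mul]; exact S.mul_mem (h x) ih

theorem closure_gens : Subgroup.closure gens = ⊤ := by
  rw [eq_top_iff]
  intro g _
  set S := Subgroup.closure gens with hS
  have hM : ∀ m : MM, iM m ∈ S := fun m =>
    Subgroup.subset_closure (Or.inl ⟨m, rfl⟩)
  have hF : ∀ f : FF, iF f ∈ S := wp_mem S iF (fun i =>
    Subgroup.subset_closure (Or.inr (Or.inl ⟨i, rfl⟩)))
  have hQ : ∀ q : QQ, iQ q ∈ S := by
    intro q
    have h1 : iQ q = iM q.left * iF q.right := by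
      conv_lhs => rw [← SemidirectProduct.inl_left_mul_inr_right q]
      rw [map_mul]
      rfl
    rw [h1]
    exact S.mul_mem (hM _) (hF _)
  have hW1 : ∀ w : W1, iW1 w ∈ S := by
    apply wp_mem
    rintro ⟨f, c⟩
    obtain ⟨m, hm⟩ := exists_dig f c
    have h1 : ((⟨m, f⟩ : QQ)) • ((1, 0) : V1) = (f, c) := by
      rw [smul_V1]
      simp [hm]
    have h2 := iQ_conj ⟨m, f⟩ (gen _ (1, 0))
    rw [phi1_gen, h1] at h2
    rw [← h2]
    exact S.mul_mem (S.mul_mem (hQ _)
      (Subgroup.subset_closure (Or.inr (Or.inr (Or.inl rfl))))) (S.inv_mem (hQ _))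
  have hG1 : ∀ q : G1, iG1 q ∈ S := by
    intro q
    have h1 : iG1 q = iW1 q.left * iQ q.right := by
      conv_lhs => rw [← SemidirectProduct.inl_left_mul_inr_right q]
      rw [map_mul]
      rfl
    rw [h1]
    exact S.mul_mem (hW1 _) (hQ _)
  have hW2 : ∀ w : W2, iW2 w ∈ S := by
    apply wp_mem
    intro y
    have h1 : (SemidirectProduct.inl y : G1) • (1 : W1) = y := by
      rw [smul_W1]
      simp
    have h2 := iG1_conj (SemidirectProduct.inl y) (gen _ 1)
    rw [phi2_gen, h1] at h2
    rw [← h2]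
    exact S.mul_mem (S.mul_mem (hG1 _)
      (Subgroup.subset_closure (Or.inr (Or.inr (Or.inr rfl))))) (S.inv_mem (hG1 _))
  have h1 : g = iW2 g.left * iG1 g.right := (SemidirectProduct.inl_left_mul_inr_right g).symm
  rw [h1]
  exact S.mul_mem (hW2 _) (hG1 _)

end Pool.Agent.RD93
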