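import Pool.Agent.LibRD93.Inst

/-!
# The cocompact normal subgroup
-/

set_option autoImplicit false

open Topology

namespace Pool.Agent.RD93

open Pool.Agent.RD54

/-- The compact quotient. -/
abbrev KK : Type := Multiplicative (ℤ → ZMod 2)

/-- The `k`-component on `MM`. -/
def kM : MM →* KK := AddMonoidHom.toMultiplicative (AddMonoidHom.snd (ℤ → ZMod 2) (ℤ → ZMod 2))

theorem kM_apply (m : MM) : kM m = Multiplicative.ofAdd (Multiplicative.toAdd m).2 := rfl

theorem kM_genAct (i : Fin 4) (m : MM) : kM (genAct i m) = kM m := by
  match i with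
  | 0 => rfl
  | 1 => rfl
  | 2 => rfl
  | 3 => rfl

theorem kM_actF (f : FF) (m : MM) : kM (actF f m) = kM m := by
  obtain ⟨l, hl, -⟩ := exists_reduced f
  subst hl
  induction l generalizing m with
  | nil => rw [wp_nil, map_one]; rfl
  | cons i l ih => rw [wp_cons, map_mul, actF_gen, MulAut.mul_apply, kM_genAct, ih]

/-- The `k`-component on `QQ`. -/
noncomputable def kQ : QQ →* KK where
  toFun q := kM q.left
  map_one' := map_one kM
  map_mul' q r := by rw [SemidirectProduct.mul_left, map_mul, kM_actF]

/-- The `k`-component on `G1`. -/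
noncomputable def kG1 : G1 →* KK := kQ.comp SemidirectProduct.rightHom

/-- The `k`-component on `GG`. -/
noncomputable def kG : GG →* KK := kG1.comp SemidirectProduct.rightHom

theorem kG_apply (g : GG) : kG g = kM g.right.right.left := rfl

/-- The cocompact normal subgroup. -/
noncomputable def HH : Subgroup GG := kG.ker

theorem mem_HH (g : GG) : g ∈ HH ↔ (Multiplicative.toAdd g.right.right.left).2 = 0 := by
  change kG g = 1 ↔ _
  rw [kG_apply, kM_apply]
  rfl

instance : HH.Normal := inferInstanceAs (kG.ker).Normal

theorem continuous_kG : Continuous kG := by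
  have h1 : Continuous (fun m : AA => m.2) := continuous_snd
  have h2 : Continuous (fun g : GG => g.right.right.left) :=
    continuous_left.comp (continuous_right.comp continuous_right)
  exact h1.comp h2

theorem isClosed_HH : IsClosed (HH : Set GG) := by
  have h1 : (HH : Set GG) = kG ⁻¹' {1} := rfl
  rw [h1]
  exact (isClosed_singleton (X := ℤ → ZMod 2)).preimage continuous_kG

theorem continuous_inl {N Q : Type*} [Group N] [Group Q] [TopologicalSpace N] [TopologicalSpace Q]
    {φ : Q →* MulAut N} : Continuous (SemidirectProduct.inl : N → N ⋊[φ] Q) :=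
  continuous_mk continuous_id continuous_const

theorem continuous_inr {N Q : Type*} [Group N] [Group Q] [TopologicalSpace N] [TopologicalSpace Q]
    {φ : Q →* MulAut N} : Continuous (SemidirectProduct.inr : Q → N ⋊[φ] Q) :=
  continuous_mk continuous_const continuous_id

/-- The embedding of the compact group. -/
noncomputable def iM : MM →* GG :=
  (SemidirectProduct.inr : G1 →* GG).comp
    ((SemidirectProduct.inr : QQ →* G1).comp (SemidirectProduct.inl : MM →* QQ))

theorem continuous_iM : Continuous iM :=
  continuous_inr.comp (continuous_inr.comp continuous_inl)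

theorem kG_iM (m : MM) : kG (iM m) = kM m := rfl

instance instCompactQuot : CompactSpace (GG ⧸ HH) := by
  have h1 : Continuous (fun m : MM => ((iM m : GG) : GG ⧸ HH)) :=
    continuous_quot_mk.comp continuous_iM
  have h2 : Function.Surjective (fun m : MM => ((iM m : GG) : GG ⧸ HH)) := by
    intro x
    obtain ⟨g, rfl⟩ := QuotientGroup.mk_surjective x
    refine ⟨Multiplicative.ofAdd (0, Multiplicative.toAdd (kG g)), ?_⟩
    rw [QuotientGroup.eq]
    change kG (_ * g) = 1
    rw [map_mul, map_inv, kG_iM, inv_mul_eq_one]
    rfl
  exact h2.compactSpace h1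

end Pool.Agent.RD93
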